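import Pool.Agent.Q83.Her.Fin

/-! A window with a local reproducing formula on every disc is a Hermite function. -/

set_option autoImplicit false

open MeasureTheory
open Pool.Agent.Q83.Her

namespace Pool.Agent.Results.MP_42c7e8_an.Hermite

/-- The functions `herm n` are the `L²`-normalised Hermite functions, and every nonzero
`g ∈ L²(ℝ)` which admits a local reproducing formula on all discs is `c π(a) h_n` for some `n`,
some constant `c ≠ 0` and some point `a` of the plane. -/
theorem result :
    (∀ n : ℕ, ∫ t : ℝ, ‖herm n t‖ ^ 2 = 1) ∧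
    ∀ g : ℝ → ℂ, MemLp g 2 → ¬ g =ᵐ[volume] 0 → LocalRep g →
      ∃ n : ℕ, ∃ c : ℂ, ∃ a : ℂ, c ≠ 0 ∧ g =ᵐ[volume] fun t => c * tf a (herm n) t :=
  ⟨herm_norm, fun _ hg hne h => hermite_of_localRep hg hne h⟩

end Pool.Agent.Results.MP_42c7e8_an.Hermite
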